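import Pool.Agent.HP27.EN.F

set_option autoImplicit false

/-! The Liouville function at shifted and reflected arguments, arbitrary bounded coefficients, all initial segments at once,
for laws with small additive energy. -/

namespace Pool.Agent.HP27.CL
open Finset Filter
open Pool.Agent.H807R2.Dav
open Pool.Agent.H373R2.T7
open Pool.Agent.W93.DG
open Pool.Agent.TH872.Sq
open Pool.Agent.HP25.OS (dual logs liF_abs)
open Pool.Agent.HP27.EN (Em EL one_nice el_law)

variable {ι : Type}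

lemma em_neg {q k W F Y : ℕ} {s : Finset ι} {p : ι → ℝ} {φ : ι → ℤ} (h : Em q k W F Y s p φ) :
    Em q k W F Y s p (fun i => - φ i) := by
  refine ⟨h.nonneg, h.sum, fun i hi => by rw [abs_neg]; exact h.size i hi, fun M hM => ?_⟩
  have h1 := h.mom M hM
  refine le_trans (le_of_eq ?_) h1
  congr 1
  apply sum_congr rfl
  intro t _
  congr 1
  have e : ∑ i ∈ s, ((p i : ℝ) : ℂ) * ee ((t : ℝ) * (((-φ i : ℤ) : ℝ) / M)) =
      (starRingEnd ℂ) (∑ i ∈ s, ((p i : ℝ) : ℂ) * ee ((t : ℝ) * ((φ i : ℝ) / M))) := by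
    rw [map_sum]
    apply sum_congr rfl
    intro i _
    rw [map_mul, Complex.conj_ofReal]
    congr 1
    unfold ee
    rw [← Complex.exp_conj]
    congr 1
    simp only [map_mul, Complex.conj_ofReal, Complex.conj_I, map_ofNat]
    push_cast
    ring
  rw [e, Complex.norm_conj]

/-- The Liouville function on the integers, real valued. -/
noncomputable def lz (x : ℤ) : ℝ := fx liF x + fx liF (-x)

lemma fx_abs (x : ℤ) : |fx liF x| ≤ 1 := by
  unfold fx
  split_ifs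
  · rw [liF_abs]
  · rw [abs_zero]; exact zero_le_one

lemma lz_abs (x : ℤ) : |lz x| ≤ 1 := by
  unfold lz fx
  by_cases h : 1 ≤ x
  · rw [if_pos h, if_neg (by omega), add_zero, liF_abs]
  · rw [if_neg h, zero_add]
    split_ifs
    · rw [liF_abs]
    · rw [abs_zero]; exact zero_le_one

lemma ev (C : ℝ) (A : ℕ) : ∃ N₀ : ℕ, ∀ N : ℕ, N₀ ≤ N → C ≤ Real.log N ∧ Real.log N ^ A ≤ N := by
  have e0 : Tendsto (fun N : ℕ => Real.log (N : ℝ)) atTop atTop := Real.tendsto_log_atTop.comp tendsto_natCast_atTop_atTop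
  have e3 := (tendsto_natCast_atTop_atTop (R := ℝ)).eventually
      ((isLittleO_log_rpow_atTop (r := 1 / ((A : ℝ) + 1)) (by positivity)).def (c := 1) one_pos)
  obtain ⟨N₀, h⟩ := eventually_atTop.1 ((e0.eventually_ge_atTop (max C 1)).and e3)
  refine ⟨N₀ + 1, fun N hN => ?_⟩
  obtain ⟨h1, h3⟩ := h N (by omega)
  have hN1 : (1 : ℝ) ≤ N := by exact_mod_cast (by omega : 1 ≤ N)
  have hN0 : (0 : ℝ) < N := by linarith
  have hl : 1 ≤ Real.log N := (le_max_right _ _).trans h1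
  refine ⟨(le_max_left _ _).trans h1, ?_⟩
  rw [Real.norm_of_nonneg (by linarith), Real.norm_of_nonneg (by positivity), one_mul] at h3
  calc Real.log N ^ A ≤ ((N : ℝ) ^ (1 / ((A : ℝ) + 1))) ^ A := pow_le_pow_left₀ (by linarith) h3 _
    _ = (N : ℝ) ^ (1 / ((A : ℝ) + 1) * A) := by rw [Real.rpow_mul hN0.le, Real.rpow_natCast]
    _ ≤ (N : ℝ) ^ (1 : ℝ) := by
        apply Real.rpow_le_rpow_of_exponent_le hN1
        rw [one_div, inv_mul_le_iff₀ (by positivity)]
        linarith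
    _ = N := Real.rpow_one _

theorem one_z (q : ℕ) (hq : 1 ≤ q) (F W U : ℕ) : ∃ N₀ : ℕ, ∀ N : ℕ, N₀ ≤ N → ∀ (Ω : Finset ℕ) (p : ℕ → ℝ), EL q F W N Ω p →
    ∀ σ : ℤ, (σ = 1 ∨ σ = -1) → ∀ G : ℕ → ℝ, (∀ n ∈ Icc 1 N, |G n| ≤ 1) →
    ∑ v ∈ Ω, p v * |∑ n ∈ Icc 1 N, G n * lz ((v : ℤ) + σ * n)| ≤ N / Real.log N ^ U := by
  obtain ⟨K₀, hK₀⟩ := one_nice (ι := ℕ) q hq liF Pool.Agent.TH872.Sq.nice_liF F W (U + 1)
  obtain ⟨K1, hK1⟩ := ev 2 0
  refine ⟨K₀ + K1 + 1, fun N hN Ω p hL σ hσ G hG => ?_⟩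
  obtain ⟨l2, -⟩ := hK1 N (by omega)
  obtain ⟨hp0, hE⟩ := hL
  have hN0 : (0 : ℝ) < N := by exact_mod_cast (by omega : 0 < N)
  have hsum : 2 * ((N : ℝ) / Real.log N ^ (U + 1)) ≤ N / Real.log N ^ U := by
    obtain ⟨l, hl⟩ : ∃ l, l = Real.log N := ⟨_, rfl⟩
    rw [← hl] at l2 ⊢
    have hl0 : 0 < l := by linarith
    rw [mul_div_assoc', div_le_div_iff₀ (by positivity) (by positivity), pow_succ]
    have : 0 ≤ (N : ℝ) * l ^ U := by positivity
    nlinarith
  have h := dual (s := Ω) (p := p) N (2 * ((N : ℝ) / Real.log N ^ (U + 1))) (fun i n => lz ((i : ℤ) + σ * n)) (fun G' hG' => by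
    have h1 := hK₀ N (by omega) Ω p (fun v => (v : ℤ)) hE N le_rfl σ hσ G' hG'
    have h2 := hK₀ N (by omega) Ω p (fun v => -(v : ℤ)) (em_neg hE) N le_rfl (-σ) (by omega) G' hG'
    have h3 : ∀ c ∈ Icc 1 N, |∑ i ∈ Ω, p i * (G' i * lz ((i : ℤ) + σ * (c : ℕ)))| ≤
        |∑ i ∈ Ω, p i * (G' i * fx liF ((i : ℤ) + σ * (c : ℤ)))| +
        |∑ i ∈ Ω, p i * (G' i * fx liF (-(i : ℤ) + -σ * (c : ℤ)))| := by
      intro c _
      refine le_trans (le_of_eq ?_) (abs_add_le _ _)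
      congr 1
      rw [← sum_add_distrib]
      apply sum_congr rfl
      intro i _
      unfold lz
      have e : -((i : ℤ) + σ * (c : ℤ)) = -(i : ℤ) + -σ * (c : ℤ) := by ring
      rw [e]
      ring
    have h4 := sum_le_sum h3
    rw [sum_add_distrib] at h4
    linarith) 1 zero_le_one G hG
  rw [one_mul] at h
  exact h.trans hsum

open Classical in
theorem fam (q : ℕ) (hq : 1 ≤ q) (F W T U : ℕ) : ∃ N₀ : ℕ, ∀ N : ℕ, N₀ ≤ N → ∀ (Ω : Finset ℕ) (p : ℕ → ℝ), EL q F W N Ω p →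
    ∀ (κ : Type) [Fintype κ], (Fintype.card κ : ℝ) ≤ Real.log N ^ T → ∀ (G : κ → ℕ → ℝ) (σ : κ → ℤ), (∀ i n, |G i n| ≤ 1) →
    (∀ i, σ i = 1 ∨ σ i = -1) →
    ∑ v ∈ Ω, (if ∀ i, ∀ y : ℕ, y ≤ N → |∑ n ∈ Icc 1 y, G i n * lz ((v : ℤ) + σ i * n)| ≤ N / Real.log N ^ U then 0 else p v) ≤
      1 / Real.log N ^ U := by
  obtain ⟨K₀, hK₀⟩ := one_z q hq F W (T + 3 * U + 4)
  obtain ⟨K1, hK1⟩ := ev 16 (U + 3)
  refine ⟨K₀ + K1 + 1, fun N hN Ω p hL κ _ hκ G σ hG hσ => ?_⟩
  obtain ⟨l2, l10⟩ := hK1 N (by omega)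
  obtain ⟨hp0, hp1, -⟩ := el_law hL
  have hN0 : (0 : ℝ) < N := by exact_mod_cast (by omega : 0 < N)
  obtain ⟨l, hl⟩ : ∃ l, l = Real.log N := ⟨_, rfl⟩
  have hmain := fun i (y : ℕ) => hK₀ N (by omega) Ω p hL (σ i) (hσ i) (fun n => if n ≤ y then G i n else 0) (by
    intro n _
    split_ifs
    · exact hG i n
    · rw [abs_zero]; exact zero_le_one)
  rw [← hl] at l2 l10 hκ ⊢
  simp only [← hl] at hmain
  have hl0 : 0 < l := by linarith
  have hl1 : 1 ≤ l := by linarith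
  -- the grid
  obtain ⟨K, hK⟩ : ∃ K : ℕ, K = ⌈2 * l ^ (U + 1)⌉₊ := ⟨_, rfl⟩
  have hKl : 2 * l ^ (U + 1) ≤ K := by rw [hK]; exact Nat.le_ceil _
  have hKu : (K : ℝ) ≤ 2 * l ^ (U + 1) + 1 := by rw [hK]; exact (Nat.ceil_lt_add_one (by positivity)).le
  have hlU : 1 ≤ l ^ (U + 1) := one_le_pow₀ hl1
  have hK1' : 1 ≤ K := by
    have : (1 : ℝ) ≤ K := by linarith
    exact_mod_cast this
  obtain ⟨D, hD⟩ : ∃ D : ℕ, D = N / K := ⟨_, rfl⟩
  have hK4 : (K : ℝ) ≤ l ^ (U + 2) := by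
    have e : l ^ (U + 2) = l ^ (U + 1) * l := by ring
    rw [e]
    nlinarith
  have hKN : K ≤ N := by
    have h1 : (K : ℝ) ≤ N := hK4.trans ((pow_le_pow_right₀ hl1 (by omega)).trans l10)
    exact_mod_cast h1
  have hD1 : 1 ≤ D := by rw [hD]; exact Nat.div_pos hKN (by omega)
  have hDr : (D : ℝ) ≤ N / (2 * l ^ (U + 1)) := by
    have h1 : (D : ℝ) ≤ N / K := by rw [hD]; exact Nat.cast_div_le
    refine h1.trans ?_
    exact div_le_div_of_nonneg_left hN0.le (by positivity) hKl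
  have hDK : N < D * (2 * K) := by
    have h1 := Nat.lt_mul_div_succ N (show 0 < K by omega)
    rw [← hD] at h1
    nlinarith
  -- the bad events on the grid
  obtain ⟨S, hS⟩ : ∃ S : κ → ℕ → ℕ → ℝ, ∀ i y v, S i y v = |∑ n ∈ Icc 1 N, (if n ≤ y then G i n else 0) * lz ((v : ℤ) + σ i * n)| :=
    ⟨_, fun _ _ _ => rfl⟩
  have hS1 : ∀ i (y v : ℕ), y ≤ N → S i y v = |∑ n ∈ Icc 1 y, G i n * lz ((v : ℤ) + σ i * n)| := by
    intro i y v hy
    rw [hS]
    congr 1
    have e : Icc 1 y = (Icc 1 N).filter (fun n => n ≤ y) := by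
      ext n
      simp only [mem_filter, mem_Icc]
      omega
    rw [e, sum_filter]
    apply sum_congr rfl
    intro n _
    split_ifs
    · rfl
    · rw [zero_mul]
  have hNU : (N : ℝ) / (2 * l ^ U) + N / (2 * l ^ (U + 1)) ≤ N / l ^ U := by
    have e1 : (N : ℝ) / l ^ U = N / (2 * l ^ U) + N / (2 * l ^ U) := by
      field_simp
      norm_num
    rw [e1]
    have : (N : ℝ) / (2 * l ^ (U + 1)) ≤ N / (2 * l ^ U) := by
      apply div_le_div_of_nonneg_left hN0.le (by positivity)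
      have := pow_le_pow_right₀ hl1 (show U ≤ U + 1 by omega)
      linarith
    linarith
  have hkey : ∀ v : ℕ, ¬ (∀ i, ∀ y : ℕ, y ≤ N → |∑ n ∈ Icc 1 y, G i n * lz ((v : ℤ) + σ i * n)| ≤ N / l ^ U) →
      ∃ i : κ, ∃ k ∈ range (2 * K), (N : ℝ) / (2 * l ^ U) ≤ S i (k * D) v := by
    intro v hv
    push Not at hv
    obtain ⟨i, y, hy, h1⟩ := hv
    refine ⟨i, y / D, ?_, ?_⟩
    · rw [mem_range, Nat.div_lt_iff_lt_mul (by omega)]
      calc y ≤ N := hy
        _ < D * (2 * K) := hDK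
        _ = 2 * K * D := by ring
    · have hyD : y / D * D ≤ y := Nat.div_mul_le_self y D
      have hyD2 : y < y / D * D + D := by
        have h8 := Nat.lt_mul_div_succ y (show 0 < D by omega)
        calc y < D * (y / D + 1) := h8
          _ = y / D * D + D := by ring
      rw [hS1 i _ v (hyD.trans hy)]
      have e : ∑ n ∈ Icc 1 y, G i n * lz ((v : ℤ) + σ i * n) = ∑ n ∈ Icc 1 (y / D * D), G i n * lz ((v : ℤ) + σ i * n) +
          ∑ n ∈ Ioc (y / D * D) y, G i n * lz ((v : ℤ) + σ i * n) := by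
        rw [← sum_union]
        · apply sum_congr _ (fun _ _ => rfl)
          ext n
          simp only [mem_union, mem_Ioc, mem_Icc]
          omega
        · rw [disjoint_left]
          intro n h8 h9
          rw [mem_Icc] at h8
          rw [mem_Ioc] at h9
          omega
      have h2 : |∑ n ∈ Ioc (y / D * D) y, G i n * lz ((v : ℤ) + σ i * n)| ≤ D := by
        calc |∑ n ∈ Ioc (y / D * D) y, G i n * lz ((v : ℤ) + σ i * n)| ≤ ∑ n ∈ Ioc (y / D * D) y, |G i n * lz ((v : ℤ) + σ i * n)| :=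
              abs_sum_le_sum_abs _ _
          _ ≤ ∑ _n ∈ Ioc (y / D * D) y, (1 : ℝ) := by
              apply sum_le_sum
              intro n _
              rw [abs_mul]
              exact mul_le_one₀ (hG i n) (abs_nonneg _) (lz_abs _)
          _ = ((y - y / D * D : ℕ) : ℝ) := by rw [sum_const, Nat.card_Ioc, nsmul_eq_mul, mul_one]
          _ ≤ D := by exact_mod_cast (by omega : y - y / D * D ≤ D)
      rw [e] at h1
      have h3 := abs_add_le (∑ n ∈ Icc 1 (y / D * D), G i n * lz ((v : ℤ) + σ i * n)) (∑ n ∈ Ioc (y / D * D) y, G i n * lz ((v : ℤ) + σ i * n))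
      linarith
  have hQ : 0 < (N : ℝ) / (2 * l ^ U) := by positivity
  have hstep : ∀ v ∈ Ω, (if ∀ i, ∀ y : ℕ, y ≤ N → |∑ n ∈ Icc 1 y, G i n * lz ((v : ℤ) + σ i * n)| ≤ N / l ^ U then 0 else p v) ≤
      ∑ i : κ, ∑ k ∈ range (2 * K), p v * S i (k * D) v / (N / (2 * l ^ U)) := by
    intro v _
    have hnn : ∀ i k, 0 ≤ p v * S i (k * D) v / (N / (2 * l ^ U)) := by
      intro i k
      rw [hS]
      have := hp0 v
      positivity
    split_ifs with h
    · exact sum_nonneg fun i _ => sum_nonneg fun k _ => hnn i k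
    · obtain ⟨i, k, hk, h1⟩ := hkey v h
      calc p v ≤ p v * S i (k * D) v / (N / (2 * l ^ U)) := by
            rw [le_div_iff₀ hQ]
            exact mul_le_mul_of_nonneg_left h1 (hp0 v)
        _ ≤ ∑ k ∈ range (2 * K), p v * S i (k * D) v / (N / (2 * l ^ U)) :=
            single_le_sum (f := fun k => p v * S i (k * D) v / (N / (2 * l ^ U))) (fun k _ => hnn i k) hk
        _ ≤ _ := single_le_sum (f := fun i => ∑ k ∈ range (2 * K), p v * S i (k * D) v / (N / (2 * l ^ U)))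
            (fun i _ => sum_nonneg fun k _ => hnn i k) (mem_univ i)
  calc _ ≤ ∑ v ∈ Ω, ∑ i : κ, ∑ k ∈ range (2 * K), p v * S i (k * D) v / (N / (2 * l ^ U)) := sum_le_sum hstep
    _ = ∑ i : κ, ∑ k ∈ range (2 * K), (∑ v ∈ Ω, p v * S i (k * D) v) / (N / (2 * l ^ U)) := by
        rw [sum_comm]
        apply sum_congr rfl
        intro i _
        rw [sum_comm]
        apply sum_congr rfl
        intro k _
        rw [sum_div]
    _ ≤ ∑ _i : κ, ∑ _k ∈ range (2 * K), (N / l ^ (T + 3 * U + 4)) / (N / (2 * l ^ U)) := by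
        apply sum_le_sum
        intro i _
        apply sum_le_sum
        intro k _
        apply div_le_div_of_nonneg_right _ hQ.le
        refine le_trans (le_of_eq ?_) (hmain i (k * D))
        apply sum_congr rfl
        intro v _
        rw [hS]
    _ = (Fintype.card κ) * ((2 * K) * ((N / l ^ (T + 3 * U + 4)) / (N / (2 * l ^ U)))) := by
        rw [sum_const, sum_const, card_univ, card_range, nsmul_eq_mul, nsmul_eq_mul]
        push_cast
        ring
    _ ≤ l ^ T * ((2 * l ^ (U + 2)) * ((N / l ^ (T + 3 * U + 4)) / (N / (2 * l ^ U)))) := by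
        apply mul_le_mul hκ _ (by positivity) (by positivity)
        apply mul_le_mul_of_nonneg_right _ (by positivity)
        linarith
    _ = 4 * l ^ (U + 2 + T + U) / l ^ (T + 3 * U + 4) := by
        field_simp
        ring
    _ ≤ 1 / l ^ U := by
        rw [div_le_div_iff₀ (by positivity) (by positivity), one_mul]
        have e : l ^ (T + 3 * U + 4) = l ^ 2 * (l ^ (U + 2 + T + U) * l ^ U) := by
          rw [← pow_add, ← pow_add]
          congr 1
          ring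
        rw [e, mul_assoc]
        apply mul_le_mul_of_nonneg_right _ (by positivity)
        nlinarith

end Pool.Agent.HP27.CL
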