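import Pool.Agent.HP27.CL.A

set_option autoImplicit false

/-! The Liouville function at the values of a polynomial times a linear factor with a random constant term, in residue classes
and two-sided windows. -/

namespace Pool.Agent.HP27.CL
open Finset Filter
open Pool.Agent.TH872.Sq
open Pool.Agent.HP27.EN (EL el_law)

/-- The Liouville function on the integers, `λ(-m) = λ(m)` and `λ(0) = 0`. -/
def lam (m : ℤ) : ℤ := if m = 0 then 0 else (-1) ^ ArithmeticFunction.cardFactors m.natAbs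

lemma lam_mul (a b : ℤ) : lam (a * b) = lam a * lam b := by
  unfold lam
  by_cases ha : a = 0
  · simp [ha]
  by_cases hb : b = 0
  · simp [hb]
  rw [if_neg ha, if_neg hb, if_neg (mul_ne_zero ha hb), Int.natAbs_mul,
    ArithmeticFunction.cardFactors_mul (Int.natAbs_ne_zero.2 ha) (Int.natAbs_ne_zero.2 hb), pow_add]

lemma lz_lam (x : ℤ) : lz x = (lam x : ℝ) := by
  unfold lz lam fx liF
  rcases lt_trichotomy x 0 with h | h | h
  · rw [if_neg (by omega), if_pos (by omega), if_neg (by omega), zero_add]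
    have e : (-x).toNat = x.natAbs := by omega
    rw [e]
    push_cast
    rfl
  · subst h
    simp
  · rw [if_pos (by omega), if_neg (by omega), if_neg (by omega), add_zero]
    have e : x.toNat = x.natAbs := by omega
    rw [e]
    push_cast
    rfl

lemma lam_abs (x : ℤ) : |((lam x : ℤ) : ℝ)| ≤ 1 := by
  rw [← lz_lam]
  exact lz_abs x

/-- sums over windows of integers -/
lemma windows (F : ℤ → ℝ) (Y : ℕ) (E : ℝ) (h0 : |F 0| ≤ E) (hp : ∀ y : ℕ, y ≤ Y → |∑ n ∈ Icc 1 y, F (n : ℤ)| ≤ E)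
    (hn : ∀ y : ℕ, y ≤ Y → |∑ n ∈ Icc 1 y, F (-(n : ℤ))| ≤ E) (u w : ℤ) (hu : |u| ≤ Y) (hw : |w| ≤ Y) :
    |∑ n ∈ Icc u w, F n| ≤ 3 * E := by
  have hE : 0 ≤ E := (abs_nonneg _).trans h0
  -- the sums over positive and negative initial segments
  have e1 : ∀ a : ℤ, 0 ≤ a → ∑ n ∈ Icc 1 a, F n = ∑ n ∈ Icc 1 a.toNat, F (n : ℤ) := by
    intro a ha
    refine (sum_nbij' (fun n : ℕ => (n : ℤ)) (fun n : ℤ => n.toNat) ?_ ?_ ?_ ?_ ?_).symm
    · intro n hn
      rw [mem_Icc] at hn ⊢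
      omega
    · intro n hn
      rw [mem_Icc] at hn ⊢
      omega
    · intro n _
      simp
    · intro n hn
      rw [mem_Icc] at hn
      omega
    · intro n _
      rfl
  have e2 : ∀ a : ℤ, 0 ≤ a → ∑ n ∈ Icc (-a) (-1), F n = ∑ n ∈ Icc 1 a.toNat, F (-(n : ℤ)) := by
    intro a ha
    refine (sum_nbij' (fun n : ℕ => -(n : ℤ)) (fun n : ℤ => (-n).toNat) ?_ ?_ ?_ ?_ ?_).symm
    · intro n hn
      rw [mem_Icc] at hn ⊢
      omega
    · intro n hn
      rw [mem_Icc] at hn ⊢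
      omega
    · intro n _
      simp
    · intro n hn
      rw [mem_Icc] at hn
      omega
    · intro n _
      rfl
  rw [abs_le] at hu hw
  have hP : ∀ a : ℤ, 0 ≤ a → a ≤ Y → |∑ n ∈ Icc 1 a, F n| ≤ E := fun a ha1 ha2 => by
    rw [e1 a ha1]
    exact hp _ (by omega)
  have hN : ∀ a : ℤ, 0 ≤ a → a ≤ Y → |∑ n ∈ Icc (-a) (-1), F n| ≤ E := fun a ha1 ha2 => by
    rw [e2 a ha1]
    exact hn _ (by omega)
  rcases lt_or_ge w u with h | h
  · rw [Icc_eq_empty (by omega), sum_empty, abs_zero]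
    linarith
  rcases le_or_gt 1 u with h1 | h1
  · have e : ∑ n ∈ Icc 1 w, F n = ∑ n ∈ Icc 1 (u - 1), F n + ∑ n ∈ Icc u w, F n := by
      rw [← sum_union]
      · apply sum_congr _ (fun _ _ => rfl)
        ext n
        simp only [mem_union, mem_Icc]
        omega
      · rw [disjoint_left]
        intro n h8 h9
        rw [mem_Icc] at h8 h9
        omega
    have g1 := hP w (by omega) (by omega)
    have g2 := hP (u - 1) (by omega) (by omega)
    rw [abs_le] at g1 g2 ⊢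
    constructor <;> linarith [g1.1, g1.2, g2.1, g2.2]
  rcases le_or_gt w (-1) with h2 | h2
  · have e : ∑ n ∈ Icc u (-1), F n = ∑ n ∈ Icc u w, F n + ∑ n ∈ Icc (w + 1) (-1), F n := by
      rw [← sum_union]
      · apply sum_congr _ (fun _ _ => rfl)
        ext n
        simp only [mem_union, mem_Icc]
        omega
      · rw [disjoint_left]
        intro n h8 h9
        rw [mem_Icc] at h8 h9
        omega
    have g1 := hN (-u) (by omega) (by omega)
    have g2 := hN (-(w + 1)) (by omega) (by omega)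
    rw [neg_neg] at g1 g2
    rw [abs_le] at g1 g2 ⊢
    constructor <;> linarith [g1.1, g1.2, g2.1, g2.2]
  · have e : ∑ n ∈ Icc u w, F n = ∑ n ∈ Icc u (-1), F n + (F 0 + ∑ n ∈ Icc 1 w, F n) := by
      have e3 : ∑ n ∈ ({0} : Finset ℤ), F n = F 0 := sum_singleton _ _
      rw [← e3, ← sum_union, ← sum_union]
      · apply sum_congr _ (fun _ _ => rfl)
        ext n
        simp only [mem_union, mem_Icc, mem_singleton]
        omega
      · rw [disjoint_left]
        intro n h8 h9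
        rw [mem_union, mem_singleton, mem_Icc] at h9
        rw [mem_Icc] at h8
        omega
      · rw [disjoint_left]
        intro n h8 h9
        rw [mem_singleton] at h8
        rw [mem_Icc] at h9
        omega
    have g1 := hN (-u) (by omega) (by omega)
    have g2 := hP w (by omega) (by omega)
    rw [neg_neg] at g1
    rw [abs_le] at g1 g2 h0 ⊢
    constructor <;> linarith [g1.1, g1.2, g2.1, g2.2, h0.1, h0.2]

open Classical in
/-- the coefficients -/
noncomputable def gc (f : Polynomial ℤ) (α : ℤ) (q : ℕ) (r : ℤ) (b : ℤ) (c : ℕ) : ℝ :=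
  if α.natAbs ∣ c ∧ b * ((c / α.natAbs : ℕ) : ℤ) ≡ r [ZMOD q] then (lam (f.eval (b * ((c / α.natAbs : ℕ) : ℤ))) : ℝ) else 0

lemma gc_abs (f : Polynomial ℤ) (α : ℤ) (q : ℕ) (r : ℤ) (b : ℤ) (c : ℕ) : |gc f α q r b c| ≤ 1 := by
  unfold gc
  split_ifs
  · exact lam_abs _
  · rw [abs_zero]; exact zero_le_one

lemma gc_sum (f : Polynomial ℤ) (α : ℤ) (hα : α ≠ 0) (q : ℕ) (r : ℤ) (b : ℤ) (v : ℤ) (y : ℕ) :
    ∑ n ∈ Icc 1 (α.natAbs * y), gc f α q r b n * lz (v + b * α.sign * n) =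
      ∑ n ∈ Icc 1 y, (if b * (n : ℤ) ≡ r [ZMOD q] then
        (lam (f.eval (b * (n : ℤ)) * (α * (b * (n : ℤ)) + v)) : ℝ) else 0) := by
  classical
  have ha : 0 < α.natAbs := Int.natAbs_pos.2 hα
  have h1 : ∑ n ∈ Icc 1 (α.natAbs * y), gc f α q r b n * lz (v + b * α.sign * n) =
      ∑ n ∈ (Icc 1 (α.natAbs * y)).filter (fun n => α.natAbs ∣ n), gc f α q r b n * lz (v + b * α.sign * n) := by
    rw [sum_filter]
    apply sum_congr rfl
    intro n _
    split_ifs with h
    · rfl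
    · unfold gc
      rw [if_neg (fun h' => h h'.1), zero_mul]
  rw [h1]
  refine (sum_nbij' (fun n : ℕ => α.natAbs * n) (fun n : ℕ => n / α.natAbs) ?_ ?_ ?_ ?_ ?_).symm
  · intro n hn
    rw [mem_Icc] at hn
    rw [mem_filter, mem_Icc]
    refine ⟨⟨?_, Nat.mul_le_mul_left _ hn.2⟩, dvd_mul_right _ _⟩
    exact Nat.mul_pos ha hn.1
  · intro n hn
    rw [mem_filter, mem_Icc] at hn
    obtain ⟨⟨g1, g2⟩, k, hk⟩ := hn
    subst hk
    rw [Nat.mul_div_cancel_left _ ha, mem_Icc]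
    constructor
    · by_contra hcon
      have : k = 0 := by omega
      subst this
      omega
    · exact Nat.le_of_mul_le_mul_left g2 ha
  · intro n _
    exact Nat.mul_div_cancel_left _ ha
  · intro n hn
    rw [mem_filter] at hn
    exact Nat.mul_div_cancel' hn.2
  · intro n _
    unfold gc
    rw [Nat.mul_div_cancel_left _ ha]
    by_cases h : b * (n : ℤ) ≡ r [ZMOD q]
    · rw [if_pos h, if_pos ⟨dvd_mul_right _ _, h⟩, lz_lam]
      have e : v + b * α.sign * ((α.natAbs * n : ℕ) : ℤ) = α * (b * (n : ℤ)) + v := by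
        have := Int.sign_mul_natAbs α
        push_cast
        calc v + b * α.sign * (|α| * n) = v + b * (α.sign * |α|) * n := by ring
          _ = v + b * α * n := by rw [Int.sign_mul_abs]
          _ = _ := by ring
      rw [e, lam_mul]
      push_cast
      ring
    · rw [if_neg h, if_neg (fun h' => h h'.2), zero_mul]

/-- For all `l`, all residue classes `r` modulo `q ≤ Q` and all integers `u`, `w` with `|α l u| ≤ D`, `|α l w| ≤ D`. -/
def Sm (Q D : ℕ) (E : ℝ) {M : ℕ} (f : Fin M → Polynomial ℤ) (α : Fin M → ℤ) (h : ℤ) : Prop :=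
  ∀ l, ∀ q : ℕ, 1 ≤ q → q ≤ Q → ∀ r u w : ℤ, |α l * u| ≤ D → |α l * w| ≤ D →
    |((∑ n ∈ (Icc u w).filter (fun n => n ≡ r [ZMOD q]), lam ((f l).eval n * (α l * n + h)) : ℤ) : ℝ)| ≤ E

open Classical in
theorem poly (q : ℕ) (hq : 1 ≤ q) (F W T U : ℕ) : ∃ N₀ : ℕ, ∀ N : ℕ, N₀ ≤ N → ∀ (Ω : Finset ℕ) (p : ℕ → ℝ), EL q F W N Ω p →
    ∀ M : ℕ, (M : ℝ) ≤ Real.log N ^ T → ∀ Q : ℕ, (Q : ℝ) ≤ Real.log N ^ T → ∀ (f : Fin M → Polynomial ℤ) (α : Fin M → ℤ),
    (∀ l, α l ≠ 0) →
    ∑ v ∈ Ω, (if Sm Q N (3 * (N / Real.log N ^ U)) f α v then 0 else p v) ≤ 1 / Real.log N ^ U := by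
  obtain ⟨N1, h1⟩ := fam q hq F W (3 * T + 1) U
  obtain ⟨N2, h2⟩ := ev 16 U
  refine ⟨N1 + N2 + 1, fun N hN Ω p hL M hM Q hQ f α hα => ?_⟩
  obtain ⟨l2, l3⟩ := h2 N (by omega)
  obtain ⟨hp0, -, -⟩ := el_law hL
  obtain ⟨l, hl⟩ : ∃ l, l = Real.log N := ⟨_, rfl⟩
  have h3 := h1 N (by omega) Ω p hL (Fin M × Fin (Q + 1) × Fin (Q + 1) × Bool)
  rw [← hl] at h3 l2 l3 hM hQ ⊢
  have hN0 : (0 : ℝ) < N := by exact_mod_cast (by omega : 0 < N)
  have hl0 : 0 < l := by linarith
  have hl1 : 1 ≤ l := by linarith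
  obtain ⟨bs, hbs⟩ : ∃ bs : Bool → ℤ, bs = fun b => if b then 1 else -1 := ⟨_, rfl⟩
  have hbs1 : ∀ b, bs b = 1 ∨ bs b = -1 := by
    intro b
    rw [hbs]
    cases b <;> simp
  have h4 := h3 (by
    have e : (Fintype.card (Fin M × Fin (Q + 1) × Fin (Q + 1) × Bool) : ℝ) = M * (((Q : ℝ) + 1) * (((Q : ℝ) + 1) * 2)) := by
      rw [Fintype.card_prod, Fintype.card_prod, Fintype.card_prod, Fintype.card_fin, Fintype.card_fin, Fintype.card_bool]
      push_cast
      ring
    rw [e]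
    have hT1 : 1 ≤ l ^ T := one_le_pow₀ hl1
    have hQ2 : (Q : ℝ) + 1 ≤ 2 * l ^ T := by linarith
    calc (M : ℝ) * (((Q : ℝ) + 1) * (((Q : ℝ) + 1) * 2)) ≤ l ^ T * ((2 * l ^ T) * ((2 * l ^ T) * 2)) := by
          apply mul_le_mul hM _ (by positivity) (by positivity)
          apply mul_le_mul hQ2 _ (by positivity) (by positivity)
          linarith
      _ = 8 * l ^ (3 * T) := by ring
      _ ≤ l * l ^ (3 * T) := mul_le_mul_of_nonneg_right (by linarith) (by positivity)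
      _ = l ^ (3 * T + 1) := by ring)
    (fun i => gc (f i.1) (α i.1) (i.2.1 : ℕ) ((i.2.2.1 : ℕ) : ℤ) (bs i.2.2.2)) (fun i => bs i.2.2.2 * (α i.1).sign)
    (fun i n => gc_abs _ _ _ _ _ _) (fun i => by
      have g1 := hbs1 i.2.2.2
      have g2 : (α i.1).sign = 1 ∨ (α i.1).sign = -1 := by
        rcases lt_or_gt_of_ne (hα i.1) with h | h
        · right; exact Int.sign_eq_neg_one_of_neg h
        · left; exact Int.sign_eq_one_of_pos h
      rcases g1 with g1 | g1 <;> rcases g2 with g2 | g2 <;> rw [g1, g2] <;> simp)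
  refine le_trans (sum_le_sum ?_) h4
  intro v _
  have himp : (∀ i : Fin M × Fin (Q + 1) × Fin (Q + 1) × Bool, ∀ y : ℕ, y ≤ N →
      |∑ n ∈ Icc 1 y, gc (f i.1) (α i.1) (i.2.1 : ℕ) ((i.2.2.1 : ℕ) : ℤ) (bs i.2.2.2) n *
        lz ((v : ℤ) + bs i.2.2.2 * (α i.1).sign * n)| ≤ N / l ^ U) → Sm Q N (3 * (N / l ^ U)) f α v := by
    intro hg j m hm1 hm2 r u w hu hw
    obtain ⟨r', hr'⟩ : ∃ r' : ℕ, (r' : ℤ) = r % m := ⟨(r % m).toNat, Int.toNat_of_nonneg (Int.emod_nonneg _ (by omega))⟩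
    have hr1 : r' < m := by
      have := Int.emod_lt_of_pos r (show (0 : ℤ) < m by omega)
      omega
    have hrr : ∀ n : ℤ, n ≡ r [ZMOD m] ↔ n ≡ r' [ZMOD m] := by
      intro n
      unfold Int.ModEq
      rw [hr', Int.emod_emod_of_dvd _ (dvd_refl _)]
    have hap : 0 < (α j).natAbs := Int.natAbs_pos.2 (hα j)
    obtain ⟨Fn, hFn⟩ : ∃ Fn : ℤ → ℝ, Fn = fun n => if n ≡ (r' : ℤ) [ZMOD m] then
      (lam ((f j).eval n * (α j * n + v)) : ℝ) else 0 := ⟨_, rfl⟩
    have e0 : ((∑ n ∈ (Icc u w).filter (fun n => n ≡ r [ZMOD m]), lam ((f j).eval n * (α j * n + v)) : ℤ) : ℝ) =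
        ∑ n ∈ Icc u w, Fn n := by
      rw [sum_filter]
      push_cast
      apply sum_congr rfl
      intro n _
      rw [hFn]
      simp only [hrr]
    rw [e0]
    have hpart : ∀ b : Bool, ∀ y : ℕ, y ≤ N / (α j).natAbs → |∑ n ∈ Icc 1 y, Fn (bs b * (n : ℤ))| ≤ N / l ^ U := by
      intro b y hy
      have g1 := hg (j, ⟨m, by omega⟩, ⟨r', by omega⟩, b) ((α j).natAbs * y) (by
        calc (α j).natAbs * y ≤ (α j).natAbs * (N / (α j).natAbs) := Nat.mul_le_mul_left _ hy
          _ ≤ N := Nat.mul_div_le _ _)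
      simp only at g1
      rw [gc_sum (f j) (α j) (hα j) m r' (bs b) v y] at g1
      rw [hFn]
      exact g1
    refine windows Fn (N / (α j).natAbs) (N / l ^ U) ?_ ?_ ?_ u w ?_ ?_
    · have h5 : |Fn 0| ≤ 1 := by
        rw [hFn]
        dsimp only
        split_ifs
        · exact lam_abs _
        · rw [abs_zero]; exact zero_le_one
      refine h5.trans ?_
      rw [le_div_iff₀ (by positivity), one_mul]
      exact l3
    · intro y hy
      have g1 := hpart true y hy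
      rw [hbs] at g1
      simpa using g1
    · intro y hy
      have g1 := hpart false y hy
      rw [hbs] at g1
      simpa using g1
    · rw [abs_mul, Int.abs_eq_natAbs, Int.abs_eq_natAbs] at hu
      rw [Int.abs_eq_natAbs]
      have : u.natAbs ≤ N / (α j).natAbs := by
        rw [Nat.le_div_iff_mul_le hap]
        have h6 : (α j).natAbs * u.natAbs ≤ N := by exact_mod_cast hu
        linarith
      exact_mod_cast this
    · rw [abs_mul, Int.abs_eq_natAbs, Int.abs_eq_natAbs] at hw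
      rw [Int.abs_eq_natAbs]
      have : w.natAbs ≤ N / (α j).natAbs := by
        rw [Nat.le_div_iff_mul_le hap]
        have h6 : (α j).natAbs * w.natAbs ≤ N := by exact_mod_cast hw
        linarith
      exact_mod_cast this
  by_cases hS : Sm Q N (3 * (N / l ^ U)) f α v
  · rw [if_pos hS]
    split_ifs
    · exact le_rfl
    · exact hp0 v
  · rw [if_neg hS, if_neg (fun h => hS (himp h))]

end Pool.Agent.HP27.CL
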